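import Pool.Agent.helper11.OFP.Spec

set_option autoImplicit false

open MeasureTheory

namespace Pool.Agent.OFP

open Pool.Agent.LOF

theorem LIN_inv (g : F) (z : ℝ) (h : g.1 z = z) : (g⁻¹ : F).1 z = z := by
  have h1 : (g⁻¹ : F).1 (g.1 z) = z := g.1.symm_apply_apply z
  rwa [h] at h1

/-- comparison with the identity -/
theorem LIN_lex (x : ℕ → ℝ) (s : ℕ → Bool) (f : F) (n : ℕ) (h1 : ∀ i < n, f.1 (x i) = x i) (h2 : f.1 (x n) ≠ x n) :
    LexLt x s f 1 ↔ ((s n = true ∧ f.1 (x n) < x n) ∨ (s n = false ∧ x n < f.1 (x n))) := by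
  have hone : ∀ z : ℝ, (1 : F).1 z = z := fun _ => rfl
  constructor
  · rintro ⟨m, h3, h4⟩
    simp only [hone] at h3 h4
    rcases lt_trichotomy m n with h5 | h5 | h5
    · rw [h1 m h5] at h4
      rcases h4 with ⟨-, h6⟩ | ⟨-, h6⟩
      · exact absurd h6 (lt_irrefl _)
      · exact absurd h6 (lt_irrefl _)
    · rw [h5] at h4
      exact h4
    · exact absurd (h3 n h5) h2
  · intro h3
    refine ⟨n, fun i hi => ?_, ?_⟩
    · rw [hone]
      exact h1 i hi
    · rw [hone]
      exact h3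

theorem LIN_eps (x : ℕ → ℝ) (z : ℝ) (n : ℕ) (h : ∀ i < n, x i ≠ z) : ∃ ε : ℝ, 0 < ε ∧ ∀ i < n, ε ≤ |x i - z| := by
  induction n with
  | zero => exact ⟨1, one_pos, fun i hi => absurd hi (Nat.not_lt_zero i)⟩
  | succ n ih =>
    obtain ⟨ε, h1, h2⟩ := ih fun i hi => h i (by omega)
    refine ⟨min ε |x n - z|, lt_min h1 (abs_pos.mpr (sub_ne_zero.mpr (h n (by omega)))), fun i hi => ?_⟩
    rcases Nat.lt_succ_iff_lt_or_eq.mp hi with h3 | h3
    · exact (min_le_left _ _).trans (h2 i h3)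
    · rw [h3]
      exact min_le_right _ _

theorem LIN (hBMP : BMP_stmt) : LIN_stmt := by
  intro r x y s hx hy hrx hry
  by_contra hne
  have hex : ∃ n, x n ≠ y n := by
    by_contra h
    push Not at h
    exact hne (funext h)
  classical
  let n := Nat.find hex
  have hn : x n ≠ y n := Nat.find_spec hex
  have hmin : ∀ i < n, x i = y i := fun i hi => not_not.mp (Nat.find_min hex hi)
  obtain ⟨ε1, he1, h1⟩ := LIN_eps x (x n) n fun i hi h => absurd (hx.2.1 h) (by omega)
  obtain ⟨ε2, he2, h2⟩ := LIN_eps y (y n) n fun i hi h => absurd (hy.2.1 h) (by omega)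
  have hd : 0 < |x n - y n| / 2 := by
    have := abs_pos.mpr (sub_ne_zero.mpr hn)
    linarith
  obtain ⟨ε, he, b1, b2, b3, b4, b5, b6, b7⟩ : ∃ ε : ℝ, 0 < ε ∧ ε ≤ ε1 ∧ ε ≤ ε2 ∧ ε ≤ x n ∧ ε ≤ 1 - x n ∧ ε ≤ y n ∧ ε ≤ 1 - y n ∧
      ε ≤ |x n - y n| / 2 := by
    refine ⟨min ε1 (min ε2 (min (x n) (min (1 - x n) (min (y n) (min (1 - y n) (|x n - y n| / 2)))))), ?_, ?_, ?_, ?_, ?_, ?_, ?_, ?_⟩
    · refine lt_min he1 (lt_min he2 (lt_min (hx.1 n).1 (lt_min ?_ (lt_min (hy.1 n).1 (lt_min ?_ hd)))))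
      · have := (hx.1 n).2
        linarith
      · have := (hy.1 n).2
        linarith
    · exact min_le_left _ _
    · exact (min_le_right _ _).trans (min_le_left _ _)
    · exact (min_le_right _ _).trans ((min_le_right _ _).trans (min_le_left _ _))
    · exact (min_le_right _ _).trans ((min_le_right _ _).trans ((min_le_right _ _).trans (min_le_left _ _)))
    · exact (min_le_right _ _).trans ((min_le_right _ _).trans ((min_le_right _ _).trans ((min_le_right _ _).trans (min_le_left _ _))))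
    · exact (min_le_right _ _).trans ((min_le_right _ _).trans ((min_le_right _ _).trans ((min_le_right _ _).trans
        ((min_le_right _ _).trans (min_le_left _ _)))))
    · exact (min_le_right _ _).trans ((min_le_right _ _).trans ((min_le_right _ _).trans ((min_le_right _ _).trans
        ((min_le_right _ _).trans (min_le_right _ _)))))
  obtain ⟨g, hg1, hg2, -⟩ := hBMP (x n - ε) (x n) (x n + ε) (by linarith) (by linarith) (by linarith) (by linarith)
  obtain ⟨g', hg1', -, hg3'⟩ := hBMP (y n - ε) (y n) (y n + ε) (by linarith) (by linarith) (by linarith) (by linarith)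
  have hfx : ∀ i < n, x i ≤ x n - ε ∨ x n + ε ≤ x i := by
    intro i hi
    have h3 := b1.trans (h1 i hi)
    rcases le_abs.mp h3 with h4 | h4
    · right; linarith
    · left; linarith
  have hfy : ∀ i < n, y i ≤ y n - ε ∨ y n + ε ≤ y i := by
    intro i hi
    have h3 := b2.trans (h2 i hi)
    rcases le_abs.mp h3 with h4 | h4
    · right; linarith
    · left; linarith
  have hsep : x n + ε ≤ y n - ε ∨ y n + ε ≤ x n - ε := by
    have h3 : 2 * ε ≤ |x n - y n| := by linarith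
    rcases le_abs.mp h3 with h4 | h4
    · right; linarith
    · left; linarith
  have k0 : ∀ z, (g * g'⁻¹ : F).1 z = g.1 ((g'⁻¹ : F).1 z) := fun _ => rfl
  have kx : (g * g'⁻¹ : F).1 (x n) < x n := by
    have h3 : x n ≤ y n - ε ∨ y n + ε ≤ x n := by
      rcases hsep with h3 | h3
      · left
        linarith
      · right
        linarith
    rw [k0, LIN_inv g' (x n) (hg1' _ h3)]
    exact hg2
  have ky : y n < (g * g'⁻¹ : F).1 (y n) := by
    have h3 : (g'⁻¹ : F).1 (y n) < y n + ε := by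
      have h4 : (g'⁻¹ : F).1 (y n) < (g'⁻¹ : F).1 (y n + ε) := (g'⁻¹ : F).1.lt_iff_lt.mpr (by linarith)
      rwa [LIN_inv g' (y n + ε) (hg1' _ (Or.inr le_rfl))] at h4
    have h6 : (g'⁻¹ : F).1 (y n) ≤ x n - ε ∨ x n + ε ≤ (g'⁻¹ : F).1 (y n) := by
      rcases hsep with h5 | h5
      · right
        linarith
      · left
        linarith
    rw [k0, hg1 ((g'⁻¹ : F).1 (y n)) h6]
    exact hg3'
  have kfx : ∀ i < n, (g * g'⁻¹ : F).1 (x i) = x i := by
    intro i hi
    have h3 : g'.1 (x i) = x i := by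
      rw [hmin i hi]
      exact hg1' _ (hfy i hi)
    rw [k0, LIN_inv g' (x i) h3]
    exact hg1 _ (hfx i hi)
  have kfy : ∀ i < n, (g * g'⁻¹ : F).1 (y i) = y i := by
    intro i hi
    have h3 := kfx i hi
    rwa [hmin i hi] at h3
  have l1 := LIN_lex x s (g * g'⁻¹) n kfx (ne_of_lt kx)
  have l2 := LIN_lex y s (g * g'⁻¹) n kfy (ne_of_gt ky)
  have l3 := (hrx (g * g'⁻¹) 1).symm.trans (hry (g * g'⁻¹) 1)
  rw [l1, l2] at l3
  cases hs : s n with
  | true =>
    have h3 := l3.mp (Or.inl ⟨hs, kx⟩)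
    rcases h3 with ⟨-, h4⟩ | ⟨h4, -⟩
    · exact absurd h4 (not_lt.mpr ky.le)
    · rw [hs] at h4
      exact absurd h4 (by simp)
  | false =>
    have h3 := l3.mpr (Or.inr ⟨hs, ky⟩)
    rcases h3 with ⟨h4, -⟩ | ⟨-, h4⟩
    · rw [hs] at h4
      exact absurd h4 (by simp)
    · exact absurd h4 (not_lt.mpr kx.le)

end Pool.Agent.OFP
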