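import Pool.Agent.helper11.OFP.Spec

set_option autoImplicit false

open MeasureTheory

namespace Pool.Agent.OFP

open Pool.Agent.LOF

theorem CMP : CMP_stmt := by
  intro S a b ha hb
  constructor
  · rintro ⟨t, ht, h1, h2⟩ A hA
    exact ⟨t, h1, h2, fun g hg => ht.2.2 g (hA g hg)⟩
  · intro h
    have h1 : (Set.Icc a b ∩ ⋂ g : S, {t : ℝ | (g : F).1 t = t}).Nonempty := by
      apply isCompact_Icc.inter_iInter_nonempty
      · intro g
        exact isClosed_eq (OrderIso.continuous (g : F).1) continuous_id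
      · intro u
        obtain ⟨t, h2, h3, h4⟩ := h (u.map ⟨Subtype.val, Subtype.val_injective⟩) (by
          intro g hg
          obtain ⟨x, _, rfl⟩ := Finset.mem_map.mp hg
          exact x.2)
        refine ⟨t, ⟨h2, h3⟩, ?_⟩
        simp only [Set.mem_iInter]
        intro g hg
        exact h4 (g : F) (Finset.mem_map.mpr ⟨g, hg, rfl⟩)
    obtain ⟨t, ⟨h2, h3⟩, h4⟩ := h1
    rw [Set.mem_iInter] at h4
    exact ⟨t, ⟨lt_of_lt_of_le ha h2, lt_of_le_of_lt h3 hb, fun g hg => h4 ⟨g, hg⟩⟩, h2, h3⟩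

end Pool.Agent.OFP
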